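import Pool.Agent.Q19.FiedApp

set_option autoImplicit false

/-!
# MP_a456c8_co: a pendant vertex attached at a Fiedler extremum need not be an extremum

Q1 is answered in the negative.  There is a connected graph `G` on 11 vertices and a vertex `v`
which is the strict extremum of the Fiedler vector of `G` such that in `G̃_x`, `x = 100`, the new
vertex is not an extremum of the Fiedler vector.  The second eigenvalue of `G` and of every
`G̃_y`, `y > 0`, is simple.
-/

namespace Pool.Agent.Results.MP_a456c8_co.NotExtremum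

open Matrix Finset

/-- A weighted graph on `Fin n`: symmetric nonnegative edge weights, no loops. -/
structure WGraph (n : ℕ) where
  /-- the weight of the pair `i, j` -/
  W : Matrix (Fin n) (Fin n) ℝ
  symm : ∀ i j, W i j = W j i
  nonneg : ∀ i j, 0 ≤ W i j
  noLoop : ∀ i, W i i = 0

/-- The Laplacian `D - W`. -/
def WGraph.lap {n : ℕ} (H : WGraph n) : Matrix (Fin n) (Fin n) ℝ :=
  Matrix.diagonal (fun i => ∑ j, H.W i j) - H.W

theorem WGraph.herm {n : ℕ} (H : WGraph n) : H.lap.IsHermitian := by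
  ext i j
  simp only [WGraph.lap, conjTranspose_apply, Matrix.sub_apply, star_trivial, Matrix.diagonal_apply]
  rw [H.symm j i]
  by_cases h : i = j
  · subst h; rfl
  · rw [if_neg h, if_neg (Ne.symm h)]

/-- `H.lam k` is the eigenvalue `λ_{k+1}` of the Laplacian, the eigenvalues being listed in
increasing order with multiplicity (`eigenvalues₀` is Mathlib's list in decreasing order, so the
index is reversed). -/
noncomputable def WGraph.lam {n : ℕ} (H : WGraph n) (k : Fin n) : ℝ :=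
  H.herm.eigenvalues₀ (Fin.cast (Fintype.card_fin n).symm k.rev)

/-- `0 = λ₁ < λ₂ < λ₃`: the second eigenvalue is simple. -/
def WGraph.SimpleSecond {n : ℕ} (H : WGraph n) : Prop :=
  ∃ h : 2 < n, H.lam ⟨0, by omega⟩ = 0 ∧ 0 < H.lam ⟨1, by omega⟩ ∧
    H.lam ⟨1, by omega⟩ < H.lam ⟨2, h⟩

/-- A Fiedler vector: a unit eigenvector for `λ₂`. -/
def WGraph.IsFiedler {n : ℕ} (H : WGraph n) (Φ : Fin n → ℝ) : Prop :=
  ∃ h : 1 < n, H.lap *ᵥ Φ = H.lam ⟨1, h⟩ • Φ ∧ ∑ i, Φ i ^ 2 = 1

/-- `u` is an extremum of `Φ`. -/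
def IsExtremum {n : ℕ} (Φ : Fin n → ℝ) (u : Fin n) : Prop :=
  (∀ i, Φ i ≤ Φ u) ∨ (∀ i, Φ u ≤ Φ i)

open Classical in
/-- An unweighted graph as a weighted graph. -/
noncomputable def ofGraph {n : ℕ} (G : SimpleGraph (Fin n)) : WGraph n where
  W i j := if G.Adj i j then 1 else 0
  symm i j := by simp only [G.adj_comm i j]
  nonneg i j := by split_ifs <;> norm_num
  noLoop i := by simp

open Classical in
/-- The graph `G̃_x` on `Fin (n + 1)`: the edges of `G` with weight `1` (the vertex `i` of `G` is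
`i.castSucc`) and an edge of weight `x` between `v` and the new vertex `Fin.last n`. -/
noncomputable def pendant {n : ℕ} (G : SimpleGraph (Fin n)) (v : Fin n) (x : ℝ) (hx : 0 < x) :
    WGraph (n + 1) where
  W i j := Fin.lastCases
    (Fin.lastCases 0 (fun b => if b = v then x else 0) j)
    (fun a => Fin.lastCases (if a = v then x else 0) (fun b => if G.Adj a b then 1 else 0) j) i
  symm i j := by
    refine Fin.lastCases ?_ (fun a => ?_) i <;> refine Fin.lastCases ?_ (fun b => ?_) j <;>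
      simp [G.adj_comm]
  nonneg i j := by
    refine Fin.lastCases ?_ (fun a => ?_) i <;> refine Fin.lastCases ?_ (fun b => ?_) j <;>
      simp only [Fin.lastCases_last, Fin.lastCases_castSucc] <;> first | exact le_rfl |
        (split_ifs <;> first | exact hx.le | norm_num)
  noLoop i := by
    refine Fin.lastCases ?_ (fun a => ?_) i <;> simp

section General

variable {n : ℕ}

theorem lap_one (H : WGraph n) : H.lap *ᵥ (fun _ => (1 : ℝ)) = 0 := by
  ext i
  simp only [WGraph.lap, sub_mulVec, Pi.sub_apply, mulVec_diagonal, Pi.zero_apply, mul_one]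
  simp [mulVec, dotProduct]

theorem form_eq (H : WGraph n) (z : Fin n → ℝ) :
    z ⬝ᵥ (H.lap *ᵥ z) = 1 / 2 * ∑ i, ∑ j, H.W i j * (z i - z j) ^ 2 := by
  have h1 : z ⬝ᵥ (H.lap *ᵥ z) = ∑ i, ∑ j, (H.W i j * z i ^ 2 - H.W i j * (z i * z j)) := by
    rw [dotProduct]
    apply Finset.sum_congr rfl; intro i _
    simp only [WGraph.lap, sub_mulVec, Pi.sub_apply, mulVec_diagonal]
    rw [Finset.sum_sub_distrib, ← Finset.sum_mul]
    simp only [mulVec, dotProduct]
    rw [mul_sub, Finset.mul_sum]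
    congr 1
    · ring
    · apply Finset.sum_congr rfl; intro j _; ring
  have h2 : ∑ i, ∑ j, H.W i j * z j ^ 2 = ∑ i, ∑ j, H.W i j * z i ^ 2 := by
    rw [Finset.sum_comm]
    apply Finset.sum_congr rfl; intro i _
    apply Finset.sum_congr rfl; intro j _
    rw [H.symm]
  have h3 : ∑ i, ∑ j, H.W i j * (z i - z j) ^ 2 = ∑ i, ∑ j, H.W i j * z i ^ 2 +
      ∑ i, ∑ j, H.W i j * z j ^ 2 - 2 * ∑ i, ∑ j, H.W i j * (z i * z j) := by
    simp only [Finset.mul_sum, ← Finset.sum_add_distrib, ← Finset.sum_sub_distrib]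
    apply Finset.sum_congr rfl; intro i _
    apply Finset.sum_congr rfl; intro j _
    ring
  rw [h1, h3, h2]
  simp only [Finset.sum_sub_distrib]
  ring

theorem form_nonneg (H : WGraph n) (z : Fin n → ℝ) : 0 ≤ z ⬝ᵥ (H.lap *ᵥ z) := by
  rw [form_eq]
  apply mul_nonneg (by norm_num)
  exact Finset.sum_nonneg fun i _ => Finset.sum_nonneg fun j _ =>
    mul_nonneg (H.nonneg i j) (sq_nonneg _)

theorem form_shift (H : WGraph n) (z : Fin n → ℝ) (c : ℝ) :
    (fun i => z i - c) ⬝ᵥ (H.lap *ᵥ (fun i => z i - c)) = z ⬝ᵥ (H.lap *ᵥ z) := by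
  rw [form_eq, form_eq]
  congr 1
  apply Finset.sum_congr rfl; intro i _
  apply Finset.sum_congr rfl; intro j _
  ring

theorem pendant_form (G : SimpleGraph (Fin n)) (v : Fin n) (x : ℝ) (hx : 0 < x)
    (z : Fin (n + 1) → ℝ) :
    z ⬝ᵥ ((pendant G v x hx).lap *ᵥ z) =
      (fun i : Fin n => z i.castSucc) ⬝ᵥ ((ofGraph G).lap *ᵥ (fun i : Fin n => z i.castSucc)) +
        x * (z v.castSucc - z (Fin.last n)) ^ 2 := by
  classical
  rw [form_eq, form_eq, Fin.sum_univ_castSucc]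
  simp only [Fin.sum_univ_castSucc, pendant, Fin.lastCases_last, Fin.lastCases_castSucc, ofGraph]
  rw [Finset.sum_add_distrib]
  have h1 : ∑ a : Fin n, (if a = v then x else 0) * (z a.castSucc - z (Fin.last n)) ^ 2 =
      x * (z v.castSucc - z (Fin.last n)) ^ 2 := by
    rw [Finset.sum_eq_single v]
    · rw [if_pos rfl]
    · intro b _ hb; rw [if_neg hb, zero_mul]
    · intro h; exact absurd (Finset.mem_univ _) h
  have h2 : ∑ a : Fin n, (if a = v then x else 0) * (z (Fin.last n) - z a.castSucc) ^ 2 =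
      x * (z v.castSucc - z (Fin.last n)) ^ 2 := by
    rw [← h1]
    apply Finset.sum_congr rfl; intro a _; ring
  rw [h1, h2]
  ring

/-- the sum of the squares of a vector with `∑ = 0` -/
theorem lam_eq (H : WGraph n) (k : Fin n) (j : ℕ) (hj : j < Fintype.card (Fin n))
    (h : n - 1 - k.1 = j) : H.lam k = H.herm.eigenvalues₀ ⟨j, hj⟩ := by
  unfold WGraph.lam
  congr 1
  apply Fin.ext
  simp only [Fin.val_cast, Fin.val_rev]
  omega

theorem exists_fiedler (H : WGraph n) (h : 1 < n) : ∃ Φ, H.IsFiedler Φ := by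
  obtain ⟨b, hb1, hb2, -⟩ := Q19.Fied.exists_basis H.herm
  refine ⟨b (Fin.cast (Fintype.card_fin n).symm (Fin.rev ⟨1, h⟩)), h, hb1 _, ?_⟩
  have := hb2 (Fin.cast (Fintype.card_fin n).symm (Fin.rev ⟨1, h⟩))
    (Fin.cast (Fintype.card_fin n).symm (Fin.rev ⟨1, h⟩))
  rw [if_pos rfl, dotProduct] at this
  rw [← this]
  apply Finset.sum_congr rfl; intro i _; ring

/-- If the form of `G` is positive off the constants and the Fiedler vector does not vanish at `v`
then all `G̃_x` have simple second eigenvalue. -/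
theorem pendant_simple (hn : 2 < n) (G : SimpleGraph (Fin n)) (v : Fin n)
    (hpos : ∀ z : Fin n → ℝ, z ≠ 0 → (fun _ => (1 : ℝ)) ⬝ᵥ z = 0 →
      0 < z ⬝ᵥ ((ofGraph G).lap *ᵥ z))
    (Φ : Fin n → ℝ) (hΦ : (ofGraph G).IsFiedler Φ) (hv : Φ v ≠ 0) (x : ℝ) (hx : 0 < x) :
    (pendant G v x hx).SimpleSecond := by
  obtain ⟨m, rfl⟩ : ∃ m, n = m + 3 := ⟨n - 3, by omega⟩
  set A := (ofGraph G).lap with hAdef
  set B := (pendant G v x hx).lap with hBdef
  have one_ne : ∀ k : ℕ, (fun _ => (1 : ℝ) : Fin (k + 1) → ℝ) ≠ 0 := by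
    intro k h0
    have := congrFun h0 0
    simp at this
  have hsum : ∀ (k : ℕ) (z : Fin k → ℝ), (fun _ => (1 : ℝ)) ⬝ᵥ z = ∑ i, z i := by
    intro k z; simp [dotProduct]
  -- eigenvalues of `G`
  have hcA : Fintype.card (Fin (m + 3)) = m + 1 + 2 := by simp
  set ℓ := (ofGraph G).lam ⟨1, by omega⟩ with hℓ
  have hℓ' : ℓ = (ofGraph G).herm.eigenvalues₀ ⟨m + 1, by simp⟩ :=
    lam_eq _ _ _ _ (by simp; try omega)
  have hfz := Q19.Fied.first_zero (ofGraph G).herm (m + 1) hcA _ (one_ne (m + 2))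
    (lap_one _) hpos
  have hℓ0 : 0 < ℓ := by rw [hℓ']; exact hfz.2
  have hA2 : ∀ z : Fin (m + 3) → ℝ, (fun _ => (1 : ℝ)) ⬝ᵥ z = 0 → ℓ * (z ⬝ᵥ z) ≤ z ⬝ᵥ (A *ᵥ z) := by
    intro z hz
    rw [hℓ']
    exact Q19.Fied.second_le (ofGraph G).herm (m + 1) hcA _ z (one_ne (m + 2))
      (lap_one _) hpos hz
  -- positivity for the pendant graph
  have hposB : ∀ z : Fin (m + 3 + 1) → ℝ, z ≠ 0 → (fun _ => (1 : ℝ)) ⬝ᵥ z = 0 →
      0 < z ⬝ᵥ (B *ᵥ z) := by
    intro z hz0 hz
    by_contra hcon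
    push Not at hcon
    rw [hBdef, pendant_form] at hcon
    have h1 := form_nonneg (ofGraph G) (fun i : Fin (m + 3) => z i.castSucc)
    have h2 : 0 ≤ x * (z v.castSucc - z (Fin.last (m + 3))) ^ 2 := by positivity
    have h3 : (fun i : Fin (m + 3) => z i.castSucc) ⬝ᵥ
        ((ofGraph G).lap *ᵥ (fun i : Fin (m + 3) => z i.castSucc)) = 0 := by linarith
    have h4 : x * (z v.castSucc - z (Fin.last (m + 3))) ^ 2 = 0 := by linarith
    have h5 : z v.castSucc = z (Fin.last (m + 3)) := by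
      rcases mul_eq_zero.1 h4 with h | h
      · exact absurd h hx.ne'
      · exact sub_eq_zero.1 (pow_eq_zero_iff (two_ne_zero) |>.1 h)
    set c := (∑ i : Fin (m + 3), z i.castSucc) / (m + 3 : ℝ) with hc
    have hm3 : ((m : ℝ) + 3) ≠ 0 := by positivity
    have h6 : (fun i : Fin (m + 3) => z i.castSucc - c) = 0 := by
      by_contra hne
      have h7 := hpos _ hne (by
        rw [hsum, Finset.sum_sub_distrib]
        simp only [Finset.sum_const, Finset.card_univ, Fintype.card_fin, nsmul_eq_mul]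
        push_cast
        rw [hc, mul_div_cancel₀ _ hm3, sub_self])
      rw [form_shift, h3] at h7
      exact lt_irrefl _ h7
    have h8 : ∀ i : Fin (m + 3), z i.castSucc = c := fun i => sub_eq_zero.1 (congrFun h6 i)
    have h9 : ∀ i : Fin (m + 3 + 1), z i = c := by
      intro i
      refine Fin.lastCases ?_ (fun a => h8 a) i
      rw [← h5]; exact h8 v
    rw [hsum] at hz
    simp only [h9, Finset.sum_const, Finset.card_univ, Fintype.card_fin, nsmul_eq_mul] at hz
    rcases mul_eq_zero.1 hz with h | h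
    · have : ((m + 3 + 1 : ℕ) : ℝ) ≠ 0 := by positivity
      exact this h
    · apply hz0
      funext i
      rw [h9 i, h]; rfl
  have hcB : Fintype.card (Fin (m + 3 + 1)) = (m + 2) + 2 := by simp
  have hcB' : Fintype.card (Fin (m + 3 + 1)) = (m + 1) + 3 := by simp
  have hfB := Q19.Fied.first_zero (pendant G v x hx).herm (m + 2) hcB _ (one_ne (m + 3))
    (lap_one _) hposB
  -- third eigenvalue
  have h3B := Q19.Fied.third_ge (pendant G v x hx).herm (m + 1) hcB' (fun _ => (1 : ℝ))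
    (Pi.single (Fin.last (m + 3)) 1) ℓ (by
      intro z hz1 hz2
      rw [single_dotProduct, one_mul] at hz2
      rw [hsum, Fin.sum_univ_castSucc, hz2, add_zero] at hz1
      rw [pendant_form]
      have h1 : z ⬝ᵥ z = (fun i : Fin (m + 3) => z i.castSucc) ⬝ᵥ
          (fun i : Fin (m + 3) => z i.castSucc) := by
        simp only [dotProduct]
        rw [Fin.sum_univ_castSucc, hz2]; simp
      have h2 := hA2 (fun i : Fin (m + 3) => z i.castSucc) (by rw [hsum]; exact hz1)
      rw [h1]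
      have h4 : 0 ≤ x * (z v.castSucc - z (Fin.last (m + 3))) ^ 2 := by positivity
      linarith)
  -- second eigenvalue
  obtain ⟨hn1, hΦ1, hΦ2⟩ := hΦ
  have hΦ1' : A *ᵥ Φ = ℓ • Φ := hΦ1
  have hΦs : ∑ i, Φ i = 0 := by
    have := Q19.Fied.orth (ofGraph G).herm (x := fun _ => (1 : ℝ)) (y := Φ) (a := 0) (b := ℓ)
      (by rw [lap_one, zero_smul]) hΦ1' hℓ0.ne
    rw [hsum] at this
    exact this
  have hΦΦ : Φ ⬝ᵥ Φ = 1 := by
    rw [← hΦ2, dotProduct]
    apply Finset.sum_congr rfl; intro i _; ring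
  set c : ℝ := Φ v / (m + 4) with hc
  have hm4 : ((m : ℝ) + 4) ≠ 0 := by positivity
  have hcm : c * (m + 4) = Φ v := by rw [hc, div_mul_cancel₀ _ hm4]
  let p : Fin (m + 3 + 1) → ℝ := Fin.lastCases (Φ v - c) (fun i => Φ i - c)
  have hp1 : ∀ i : Fin (m + 3), p i.castSucc = Φ i - c := fun i => by simp [p]
  have hp2 : p (Fin.last (m + 3)) = Φ v - c := by simp [p]
  have hps : (fun _ => (1 : ℝ)) ⬝ᵥ p = 0 := by
    rw [hsum, Fin.sum_univ_castSucc, hp2]
    simp only [hp1]
    rw [Finset.sum_sub_distrib, hΦs]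
    simp only [Finset.sum_const, Finset.card_univ, Fintype.card_fin, nsmul_eq_mul]
    push_cast
    linarith
  have hpB : p ⬝ᵥ (B *ᵥ p) = ℓ := by
    rw [hBdef, pendant_form]
    simp only [hp1, hp2, sub_self]
    rw [form_shift, ← hAdef, hΦ1', dotProduct_smul, hΦΦ]
    simp
  have hpp : p ⬝ᵥ p = 1 + Φ v ^ 2 * ((m + 3) / (m + 4)) := by
    rw [dotProduct, Fin.sum_univ_castSucc, hp2]
    simp only [hp1]
    have h1 : ∑ i, (Φ i - c) * (Φ i - c) = 1 + (m + 3) * c ^ 2 := by
      have : ∀ i, (Φ i - c) * (Φ i - c) = Φ i * Φ i - 2 * c * Φ i + c ^ 2 := fun i => by ring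
      simp only [this, Finset.sum_add_distrib, Finset.sum_sub_distrib, ← Finset.mul_sum, hΦs]
      have h2 : ∑ i, Φ i * Φ i = 1 := hΦΦ
      rw [h2]
      simp only [Finset.sum_const, Finset.card_univ, Fintype.card_fin, nsmul_eq_mul]
      push_cast; ring
    rw [h1, ← hcm]
    field_simp
    ring
  have h2B := Q19.Fied.second_le (pendant G v x hx).herm (m + 2) hcB _ p (one_ne (m + 3))
    (lap_one _) hposB hps
  have hpB' : p ⬝ᵥ ((pendant G v x hx).lap *ᵥ p) = ℓ := hpB
  rw [hpB', hpp] at h2B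
  have hlt : (pendant G v x hx).herm.eigenvalues₀ ⟨m + 2, by omega⟩ < ℓ := by
    have h5 : 0 < Φ v ^ 2 * (((m : ℝ) + 3) / (m + 4)) := by
      have : 0 < Φ v ^ 2 := by positivity
      positivity
    have h6 := mul_pos hfB.2 h5
    linarith
  refine ⟨by omega, ?_, ?_, ?_⟩
  · rw [lam_eq _ _ (m + 2 + 1) (by simp) (by simp)]
    exact hfB.1
  · rw [lam_eq _ _ (m + 2) (by simp) (by simp)]
    exact hfB.2
  · rw [lam_eq _ ⟨1, by omega⟩ (m + 2) (by simp) (by simp),
      lam_eq _ ⟨2, by omega⟩ (m + 1) (by simp) (by simp)]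
    exact lt_of_lt_of_le hlt h3B

end General

/-- adjacency matrix -/
def adjL : List (List ℤ) := [
  [0, 0, 1, 0, 0, 0, 0, 0, 0, 0, 1],
  [0, 0, 0, 1, 0, 0, 1, 0, 1, 0, 0],
  [1, 0, 0, 1, 0, 0, 0, 0, 0, 1, 0],
  [0, 1, 1, 0, 1, 0, 0, 1, 1, 1, 0],
  [0, 0, 0, 1, 0, 1, 0, 1, 1, 0, 1],
  [0, 0, 0, 0, 1, 0, 0, 0, 0, 0, 0],
  [0, 1, 0, 0, 0, 0, 0, 1, 0, 1, 0],
  [0, 0, 0, 1, 1, 0, 1, 0, 0, 0, 0],
  [0, 1, 0, 1, 1, 0, 0, 0, 0, 1, 0],
  [0, 0, 1, 1, 0, 0, 1, 0, 1, 0, 0],
  [1, 0, 0, 0, 1, 0, 0, 0, 0, 0, 0]]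

/-- weights of `G̃_x`, `x = 100` -/
def adjB : List (List ℤ) := [
  [0, 0, 1, 0, 0, 0, 0, 0, 0, 0, 1, 0],
  [0, 0, 0, 1, 0, 0, 1, 0, 1, 0, 0, 0],
  [1, 0, 0, 1, 0, 0, 0, 0, 0, 1, 0, 100],
  [0, 1, 1, 0, 1, 0, 0, 1, 1, 1, 0, 0],
  [0, 0, 0, 1, 0, 1, 0, 1, 1, 0, 1, 0],
  [0, 0, 0, 0, 1, 0, 0, 0, 0, 0, 0, 0],
  [0, 1, 0, 0, 0, 0, 0, 1, 0, 1, 0, 0],
  [0, 0, 0, 1, 1, 0, 1, 0, 0, 0, 0, 0],
  [0, 1, 0, 1, 1, 0, 0, 0, 0, 1, 0, 0],
  [0, 0, 1, 1, 0, 0, 1, 0, 1, 0, 0, 0],
  [1, 0, 0, 0, 1, 0, 0, 0, 0, 0, 0, 0],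
  [0, 0, 100, 0, 0, 0, 0, 0, 0, 0, 0, 0]]

/-- approximate Fiedler vector of `G`, times `10^6` -/
def wA : List ℤ := [-167187, -154003, -194910, -91254, 163983, 900838, -166805, -43114, -77979, -166858, -2711]

/-- approximate Fiedler vector of `G̃_x` -/
def wB : List ℤ := [330507, -10953, 291487, 11892, -187951, -810027, -4041, -80689, -32298, 82623, 115708, 293742]

def rA : List (List ℤ) := [
  [1046751, 502266, 31131, 492243, 451477, 333787, 504310, 484555, 490123, 504319, 433],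
  [0, 1157231, 444493, -201501, 214291, 167312, -196685, 227495, -202348, 235385, 432239],
  [0, 0, 1186248, 77579, 302409, 202030, 509368, 330621, 497268, -74019, 259969],
  [0, 0, 0, 1669473, -130269, 162645, 112508, -128420, -187781, -107728, 339606],
  [0, 0, 0, 0, 1495478, -52650, 98784, -261654, -244434, 135648, -85352],
  [0, 0, 0, 0, 0, 1081572, 90892, 186466, 200839, 167892, 289249],
  [0, 0, 0, 0, 0, 0, 1006187, -335415, -238, -158063, 394321],
  [0, 0, 0, 0, 0, 0, 0, 970315, 22565, 176317, 427932],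
  [0, 0, 0, 0, 0, 0, 0, 0, 1187233, -147012, 365085],
  [0, 0, 0, 0, 0, 0, 0, 0, 0, 1282372, 357059],
  [0, 0, 0, 0, 0, 0, 0, 0, 0, 0, 87488]]

def rB : List (List ℤ) := [
  [733923, 267576, 131265, 277863, 187868, -92271, 270688, 236172, 257963, 309716, 52107, 404789],
  [0, 746948, 216459, -99712, 203213, 312688, -96908, 184337, -91935, 155597, 247394, 118443],
  [0, 0, 4544259, -2514, 16849, -20176, 40549, 23233, 38868, -11058, 38144, -4355639],
  [0, 0, 0, 1068828, -31934, 231220, 107760, -45044, -75907, -65108, 198031, 85961],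
  [0, 0, 0, 0, 993398, 114518, 173502, -68948, -26967, 93390, -76635, 121611],
  [0, 0, 0, 0, 0, 843967, 254257, 294196, 355625, 138790, -2984, -188759],
  [0, 0, 0, 0, 0, 0, 662386, -158014, 63794, -170775, 302801, 445312],
  [0, 0, 0, 0, 0, 0, 0, 653697, 88581, 41995, 281825, 456198],
  [0, 0, 0, 0, 0, 0, 0, 0, 780429, -144069, 222735, 351586],
  [0, 0, 0, 0, 0, 0, 0, 0, 0, 795029, 311660, 201609],
  [0, 0, 0, 0, 0, 0, 0, 0, 0, 0, 120283, -524457],
  [0, 0, 0, 0, 0, 0, 0, 0, 0, 0, 0, 250353]]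

open Q19.Psd Q19.FiedApp

/-- the integer Laplacian of an integer weight matrix -/
def lz {n : ℕ} (A : Fin n → Fin n → ℤ) : Fin n → Fin n → ℤ :=
  fun i j => (if i = j then ∑ k, A i k else 0) - A i j

/-- the graph -/
def G : SimpleGraph (Fin 11) where
  Adj i j := rd 11 adjL i j = 1
  symm := ⟨by decide +kernel⟩
  loopless := ⟨by decide +kernel⟩

theorem lap_of (n : ℕ) (H : WGraph n) (A : Fin n → Fin n → ℤ) (h : ∀ i j, H.W i j = A i j) :
    H.lap = re (lz A) := by
  ext i j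
  simp only [WGraph.lap, Matrix.sub_apply, Matrix.diagonal_apply, re, lz, h]
  push_cast
  by_cases hij : i = j
  · simp [hij]
  · simp [hij]

theorem lapG : (ofGraph G).lap = re (lz (rd 11 adjL)) := by
  apply lap_of
  have h01 : ∀ i j : Fin 11, rd 11 adjL i j = 1 ∨ rd 11 adjL i j = 0 := by decide +kernel
  intro i j
  simp only [ofGraph, G]
  rcases h01 i j with h | h
  · rw [if_pos h, h]; simp
  · rw [if_neg (by rw [h]; decide), h]; simp

theorem lapB : (pendant G 2 100 (by norm_num)).lap = re (lz (rd 12 adjB)) := by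
  apply lap_of
  have h1 : rd 12 adjB (Fin.last 11) (Fin.last 11) = 0 := by decide +kernel
  have h2 : ∀ b : Fin 11, rd 12 adjB (Fin.last 11) b.castSucc = if b = 2 then 100 else 0 := by
    decide +kernel
  have h3 : ∀ b : Fin 11, rd 12 adjB b.castSucc (Fin.last 11) = if b = 2 then 100 else 0 := by
    decide +kernel
  have h4 : ∀ a b : Fin 11, rd 12 adjB a.castSucc b.castSucc =
      if rd 11 adjL a b = 1 then 1 else 0 := by
    decide +kernel
  intro i j
  refine Fin.lastCases ?_ (fun a => ?_) i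
  · refine Fin.lastCases ?_ (fun b => ?_) j
    · rw [h1]
      simp only [pendant, Fin.lastCases_last, Int.cast_zero]
    · rw [h2]
      simp only [pendant, Fin.lastCases_last, Fin.lastCases_castSucc]
      split_ifs <;> simp
  · refine Fin.lastCases ?_ (fun b => ?_) j
    · rw [h3]
      simp only [pendant, Fin.lastCases_last, Fin.lastCases_castSucc]
      split_ifs <;> simp
    · rw [h4]
      simp only [pendant, Fin.lastCases_castSucc, G]
      split_ifs <;> simp

theorem chkA : Checks 11 (lz (rd 11 adjL)) (rd 11 rA) (rd1 11 wA) 50 43 10000000000 50 1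
    999997535274 817964853781 4 where
  symm := by decide +kernel
  row := by decide +kernel
  sum := by decide +kernel
  hN := by decide +kernel
  hP := by decide +kernel
  pos := by decide +kernel
  res := by decide +kernel
  cert := by decide +kernel

theorem chkB : Checks 12 (lz (rd 12 adjB)) (rd 12 rB) (rd1 12 wB) 20 17 10000000000 20 1
    999999724384 767969315438 121 where
  symm := by decide +kernel
  row := by decide +kernel
  sum := by decide +kernel
  hN := by decide +kernel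
  hP := by decide +kernel
  pos := by decide +kernel
  res := by decide +kernel
  cert := by decide +kernel

theorem connG : G.Connected := by
  let p : Fin 11 → Fin 11 := fun i => ![0, 3, 0, 2, 10, 4, 1, 3, 3, 2, 0] i
  have hp : ∀ i, i = p i ∨ G.Adj i (p i) := by
    show ∀ i, i = p i ∨ rd 11 adjL i (p i) = 1
    decide +kernel
  have hr : ∀ i, G.Reachable i (p i) := by
    intro i
    rcases hp i with h | h
    · rw [← h]
    · exact h.reachable
  have h4 : ∀ i, p (p (p (p i))) = 0 := by decide +kernel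
  have h0 : ∀ i, G.Reachable i 0 := by
    intro i
    rw [← h4 i]
    exact (hr i).trans ((hr _).trans ((hr _).trans (hr _)))
  exact { preconnected := fun i j => (h0 i).trans (h0 j).symm, nonempty := ⟨0⟩ }

theorem simple_of {n m : ℕ} (hn : n = m + 3) (H : WGraph n) {L R : Fin n → Fin n → ℤ}
    {w : Fin n → ℤ} {s T K a b N P e : ℤ} (h : Checks n L R w s T K a b N P e)
    (hH : H.lap = re L) : H.SimpleSecond ∧ 0 < H.lam ⟨1, by omega⟩ ∧
      H.lam ⟨1, by omega⟩ ≤ (P / N : ℝ) := by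
  have hA : (re L).IsHermitian := h.herm
  have hr : ∀ i, H.herm.eigenvalues₀ i = hA.eigenvalues₀ i := by
    intro i
    congr 1
  have key := h.eig hA hn (Fin.cast (Fintype.card_fin n).symm (Fin.rev ⟨0, by omega⟩))
    (Fin.cast (Fintype.card_fin n).symm (Fin.rev ⟨1, by omega⟩))
    (Fin.cast (Fintype.card_fin n).symm (Fin.rev ⟨2, by omega⟩))
    (by simp; omega) (by simp; omega) (by simp; omega)
  simp only [← hr] at key
  obtain ⟨k0, k1, k2, k3⟩ := key
  exact ⟨⟨by omega, k0, k1, lt_of_le_of_lt k2 (lt_of_lt_of_le h.rho_lt k3)⟩, k1, k2⟩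

/-- The pendant vertex is not an extremum.  There are a connected graph `G` on 11 vertices and a
vertex `v` of `G` such that `λ₂` is simple for `G` and for all `G̃_y`, `y > 0`; `v` is the strict
extremum of every Fiedler vector of `G`; and for some `x > 0` the new vertex of `G̃_x` is not an
extremum of any Fiedler vector of `G̃_x`. -/
theorem result :
    ∃ (G : SimpleGraph (Fin 11)) (v : Fin 11), G.Connected ∧ (ofGraph G).SimpleSecond ∧
      (∀ (y : ℝ) (hy : 0 < y), (pendant G v y hy).SimpleSecond) ∧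
      (∃ Φ, (ofGraph G).IsFiedler Φ) ∧
      (∀ Φ, (ofGraph G).IsFiedler Φ →
        (∀ i, i ≠ v → Φ i < Φ v) ∨ (∀ i, i ≠ v → Φ v < Φ i)) ∧
      ∃ (x : ℝ) (hx : 0 < x), (∃ Φ, (pendant G v x hx).IsFiedler Φ) ∧
        ∀ Φ, (pendant G v x hx).IsFiedler Φ → ¬ IsExtremum Φ (Fin.last 11) := by
  obtain ⟨sA, pA, qA⟩ := simple_of (m := 8) rfl (ofGraph G) chkA lapG
  obtain ⟨sB, pB, qB⟩ := simple_of (m := 9) rfl (pendant G 2 100 (by norm_num)) chkB lapB
  have hne : ∀ (n : ℕ) (H : WGraph n) (Φ : Fin n → ℝ), H.IsFiedler Φ → Φ ≠ 0 := by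
    rintro n H Φ ⟨-, -, h2⟩ h0
    rw [h0] at h2
    simp at h2
  have hG : ∀ Φ, (ofGraph G).IsFiedler Φ →
        (∀ i, i ≠ 2 → Φ i < Φ 2) ∨ (∀ i, i ≠ 2 → Φ 2 < Φ i) := by
    intro Φ hΦ
    have hΦ0 := hne _ _ _ hΦ
    obtain ⟨h1, h2, h3⟩ := hΦ
    rw [lapG] at h2
    obtain ⟨α, y, hα, hy, hc⟩ := chkA.cmp _ pA qA Φ h2 hΦ0
    have hlt : ∀ i : Fin 11, i ≠ 2 → y 2 < y i := by
      intro i hi
      apply hc
      revert i
      decide +kernel
    rcases lt_or_gt_of_ne hα with h | h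
    · left
      intro i hi
      rw [hy, hy]
      exact mul_lt_mul_of_neg_left (hlt i hi) h
    · right
      intro i hi
      rw [hy, hy]
      exact mul_lt_mul_of_pos_left (hlt i hi) h
  have hpos : ∀ z : Fin 11 → ℝ, z ≠ 0 → (fun _ => (1 : ℝ)) ⬝ᵥ z = 0 →
      0 < z ⬝ᵥ ((ofGraph G).lap *ᵥ z) := by
    rw [lapG]; exact chkA.posi
  obtain ⟨Φ₀, hΦ₀⟩ := exists_fiedler (ofGraph G) (by norm_num)
  have hv : Φ₀ 2 ≠ 0 := by
    intro h0
    have h1 := hG Φ₀ hΦ₀
    obtain ⟨_, h2, _⟩ := hΦ₀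
    have hs : ∑ i, Φ₀ i = 0 := by
      have := Q19.Fied.orth (ofGraph G).herm (x := fun _ => (1 : ℝ)) (y := Φ₀) (a := 0)
        (by rw [lap_one, zero_smul]) h2 pA.ne
      simpa [dotProduct] using this
    rcases h1 with h1 | h1
    · have : ∑ i, Φ₀ i < ∑ i : Fin 11, (0 : ℝ) := by
        apply Finset.sum_lt_sum
        · intro i _
          by_cases hi : i = 2
          · rw [hi, h0]
          · exact (h0 ▸ h1 i hi).le
        · exact ⟨0, Finset.mem_univ _, h0 ▸ h1 0 (by decide)⟩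
      rw [hs] at this
      simp at this
    · have : ∑ i : Fin 11, (0 : ℝ) < ∑ i, Φ₀ i := by
        apply Finset.sum_lt_sum
        · intro i _
          by_cases hi : i = 2
          · rw [hi, h0]
          · exact (h0 ▸ h1 i hi).le
        · exact ⟨0, Finset.mem_univ _, h0 ▸ h1 0 (by decide)⟩
      rw [hs] at this
      simp at this
  refine ⟨G, 2, connG, sA, fun y hy => pendant_simple (by norm_num) G 2 hpos Φ₀ hΦ₀ hv y hy,
    ⟨Φ₀, hΦ₀⟩, hG, 100, by norm_num, exists_fiedler _ (by norm_num), ?_⟩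
  intro Φ hΦ hext
  have hΦ0 := hne _ _ _ hΦ
  obtain ⟨h1, h2, h3⟩ := hΦ
  rw [lapB] at h2
  obtain ⟨α, y, hα, hy, hc⟩ := chkB.cmp _ pB qB Φ h2 hΦ0
  have hy1 : y (Fin.last 11) < y 0 := by apply hc; decide +kernel
  have hy2 : y 5 < y (Fin.last 11) := by apply hc; decide +kernel
  rcases hext with h | h
  · have g1 := h 0
    have g2 := h 5
    rw [hy, hy] at g1 g2
    rcases lt_or_gt_of_ne hα with h' | h'
    · nlinarith
    · nlinarith
  · have g1 := h 0
    have g2 := h 5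
    rw [hy, hy] at g1 g2
    rcases lt_or_gt_of_ne hα with h' | h'
    · nlinarith
    · nlinarith

end Pool.Agent.Results.MP_a456c8_co.NotExtremum
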